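import Pool.Agent.H29.UDP.TLat

/-!
# MP_47c37b_mp: row PJR, the periodised coupling is reflection positive
-/

set_option autoImplicit false

open MeasureTheory Filter Topology
open scoped ENNReal InnerProductSpace

namespace Pool.Agent.H7.UDP

open Pool.Agent.H29.UDP
open Pool.Agent.H43.DPC (V)

/-! ### Averages over boxes -/

/-- the box `{0, .., M - 1}^ι` -/
private noncomputable def B {ι : Type} [Fintype ι] [DecidableEq ι] (M : ℕ) : Finset (ι → ℤ) :=
  Fintype.piFinset fun _ => Finset.Ico (0 : ℤ) M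

/-- the number of `a` with `a` and `a + t` in `{0, .., M - 1}` -/
private noncomputable def q (M : ℕ) (t : ℤ) : ℕ :=
  ((Finset.Ico (0 : ℤ) M).filter fun a => a + t ∈ Finset.Ico (0 : ℤ) M).card

private theorem q_le (M : ℕ) (t : ℤ) : q M t ≤ M := by
  unfold q
  refine (Finset.card_filter_le _ _).trans ?_
  simp

private theorem le_q (M : ℕ) (t : ℤ) : (M : ℤ) - |t| ≤ q M t := by
  have h1 : Finset.Ico (max 0 (-t)) (min (M : ℤ) (M - t)) ⊆
      (Finset.Ico (0 : ℤ) M).filter fun a => a + t ∈ Finset.Ico (0 : ℤ) M := by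
    intro a ha
    rw [Finset.mem_Ico, max_le_iff, lt_min_iff] at ha
    rw [Finset.mem_filter, Finset.mem_Ico, Finset.mem_Ico]
    omega
  have h2 := Finset.card_le_card h1
  rw [Int.card_Ico] at h2
  have h3 : (M : ℤ) - |t| ≤ ((min (M : ℤ) (M - t) - max 0 (-t)).toNat : ℤ) := by
    refine le_trans ?_ (Int.self_le_toNat _)
    rcases abs_cases t with h | h <;> rcases min_cases (M : ℤ) (M - t) with h' | h' <;>
      rcases max_cases 0 (-t) with h'' | h'' <;> omega
  unfold q
  omega

private theorem q_tendsto (t : ℤ) : Tendsto (fun M : ℕ => (q M t : ℝ) / M) atTop (𝓝 1) := by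
  have h1 : Tendsto (fun M : ℕ => 1 - |(t : ℝ)| / M) atTop (𝓝 (1 - 0)) :=
    tendsto_const_nhds.sub (tendsto_const_div_atTop_nhds_zero_nat _)
  rw [sub_zero] at h1
  refine tendsto_of_tendsto_of_tendsto_of_le_of_le' h1 tendsto_const_nhds ?_ ?_
  · filter_upwards [eventually_ge_atTop 1] with M hM
    have hM' : (0 : ℝ) < M := by exact_mod_cast hM
    rw [le_div_iff₀ hM', sub_mul, div_mul_cancel₀ _ hM'.ne', one_mul]
    exact_mod_cast le_q M t
  · filter_upwards [eventually_ge_atTop 1] with M hM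
    have hM' : (0 : ℝ) < M := by exact_mod_cast hM
    rw [div_le_one hM']
    exact_mod_cast q_le M t

private theorem card_B {ι : Type} [Fintype ι] [DecidableEq ι] (M : ℕ) (n : ι → ℤ) :
    ((B (ι := ι) M).filter fun l => l + n ∈ B (ι := ι) M).card = ∏ i, q M (n i) := by
  have h : ((B (ι := ι) M).filter fun l => l + n ∈ B (ι := ι) M) = Fintype.piFinset fun i =>
      (Finset.Ico (0 : ℤ) M).filter fun a => a + n i ∈ Finset.Ico (0 : ℤ) M := by
    ext l
    simp only [B, Finset.mem_filter, Fintype.mem_piFinset, Pi.add_apply]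
    exact forall_and.symm
  rw [h, Fintype.card_piFinset]
  rfl

private theorem sum_B {ι : Type} [Fintype ι] [DecidableEq ι] {G : (ι → ℤ) → ℝ} (hG : Summable G)
    (M : ℕ) : ∑ l ∈ B (ι := ι) M, ∑ l' ∈ B (ι := ι) M, G (l - l') =
      ∑' n, (∏ i, (q M (n i) : ℝ)) * G n := by
  classical
  rw [Finset.sum_comm]
  have h1 : ∀ l' ∈ B (ι := ι) M, ∑ l ∈ B (ι := ι) M, G (l - l') =
      ∑' n, if l' + n ∈ B (ι := ι) M then G n else 0 := by
    intro l' _
    rw [tsum_eq_sum (s := (B (ι := ι) M).image fun l => l - l')]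
    · rw [Finset.sum_image fun a _ b _ hab => sub_left_injective hab]
      refine Finset.sum_congr rfl fun l hl => ?_
      rw [if_pos (by rwa [add_sub_cancel])]
    · intro n hn
      rw [if_neg]
      intro hc
      apply hn
      rw [Finset.mem_image]
      exact ⟨l' + n, hc, by rw [add_sub_cancel_left]⟩
  rw [Finset.sum_congr rfl h1, ← Summable.tsum_finsetSum]
  · refine tsum_congr fun n => ?_
    rw [← Finset.sum_filter, Finset.sum_const, card_B, nsmul_eq_mul]
    push_cast
    rfl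
  · intro l' _
    have := hG.indicator {n | l' + n ∈ B (ι := ι) M}
    refine this.congr fun n => ?_
    by_cases hn : l' + n ∈ B (ι := ι) M
    · rw [if_pos hn, Set.indicator_of_mem (by exact hn)]
    · rw [if_neg hn, Set.indicator_of_notMem (by exact hn)]

/-- the sum of a summable function with nonnegative box sums -/
private theorem avg {ι : Type} [Fintype ι] [DecidableEq ι] {G : (ι → ℤ) → ℝ} (hG : Summable G)
    (h : ∀ M : ℕ, 0 ≤ ∑ l ∈ B (ι := ι) M, ∑ l' ∈ B (ι := ι) M, G (l - l')) :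
    0 ≤ ∑' n, G n := by
  have hT : Tendsto (fun M : ℕ => ∑' n, (∏ i, (q M (n i) : ℝ) / M) * G n) atTop
      (𝓝 (∑' n, G n)) := by
    refine tendsto_tsum_of_dominated_convergence (bound := fun n => |G n|) hG.abs ?_ ?_
    · intro n
      have h1 : Tendsto (fun M : ℕ => ∏ i, (q M (n i) : ℝ) / M) atTop
          (𝓝 (∏ _i : ι, (1 : ℝ))) := tendsto_finsetProd _ fun i _ => q_tendsto (n i)
      have h2 := h1.mul_const (G n)
      simpa using h2
    · filter_upwards [eventually_ge_atTop 1] with M hM n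
      have hM' : (0 : ℝ) < M := by exact_mod_cast hM
      rw [Real.norm_eq_abs, abs_mul]
      have h3 : |∏ i, (q M (n i) : ℝ) / M| ≤ 1 := by
        rw [abs_of_nonneg (Finset.prod_nonneg fun i _ => by positivity)]
        refine Finset.prod_le_one (fun i _ => by positivity) fun i _ => ?_
        rw [div_le_one hM']
        exact_mod_cast q_le M (n i)
      calc _ ≤ 1 * |G n| := mul_le_mul_of_nonneg_right h3 (abs_nonneg _)
        _ = |G n| := one_mul _
  refine ge_of_tendsto' hT fun M => ?_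
  have h1 : ∀ n : ι → ℤ, (∏ i, (q M (n i) : ℝ) / M) * G n =
      (∏ _i : ι, (M : ℝ))⁻¹ * ((∏ i, (q M (n i) : ℝ)) * G n) := by
    intro n
    rw [Finset.prod_div_distrib]
    ring
  rw [tsum_congr h1, tsum_mul_left, ← sum_B hG M]
  exact mul_nonneg (inv_nonneg.2 (Finset.prod_nonneg fun i _ => Nat.cast_nonneg _)) (h M)

/-! ### Norms -/

private theorem norm_eq_of_abs {d : ℕ} {u w : Fin d → ℝ} (h : ∀ i, |u i| = |w i|) :
    ‖(WithLp.toLp 2 u : V d)‖ = ‖(WithLp.toLp 2 w : V d)‖ := by
  rw [EuclideanSpace.norm_eq, EuclideanSpace.norm_eq]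
  congr 1
  refine Finset.sum_congr rfl fun i _ => ?_
  simp only [Real.norm_eq_abs, h i]

/-- the sum over `n` for a fixed value in the direction `j` -/
private theorem posk (hRPJ : T_RPJ) {d : ℕ} (j : Fin d) {s δ : ℝ} (hs : (d : ℝ) ≤ 2 * s) (N : ℕ)
    {S : Type} [Fintype S] (v : S → ℝ) (a : S → ℝ) (ha : ∀ x, 0 < a x) (X : S → Fin d → ℤ)
    (g : S → S → ({i : Fin d // i ≠ j} → ℤ) → ℝ)
    (hg : ∀ x y n, g x y n = ‖(WithLp.toLp 2 (fun i => if h : i = j then a x + a y else
      δ * ((X x i - X y i + N * n ⟨i, h⟩ : ℤ) : ℝ)) : V d)‖ ^ (-(2 * s)))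
    (hsum : ∀ x y, Summable (g x y)) :
    0 ≤ ∑' n, ∑ x, ∑ y, v x * v y * g x y n := by
  classical
  apply avg
  · exact summable_sum fun x _ => summable_sum fun y _ => (hsum x y).mul_left _
  · intro M
    have h0 := hRPJ d j s hs ({l // l ∈ B (ι := {i : Fin d // i ≠ j}) M} × S)
      (fun p => WithLp.toLp 2 (fun i => if h : i = j then a p.2 else
        δ * ((X p.2 i + N * p.1.1 ⟨i, h⟩ : ℤ) : ℝ)))
      (fun p => v p.2) (fun p => by simpa using ha p.2)
    have h1 : ∀ p r : {l // l ∈ B (ι := {i : Fin d // i ≠ j}) M} × S,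
        ‖fl j (WithLp.toLp 2 (fun i => if h : i = j then a p.2 else
          δ * ((X p.2 i + N * p.1.1 ⟨i, h⟩ : ℤ) : ℝ)) : V d) -
          (WithLp.toLp 2 (fun i => if h : i = j then a r.2 else
          δ * ((X r.2 i + N * r.1.1 ⟨i, h⟩ : ℤ) : ℝ)) : V d)‖ ^ (-(2 * s)) =
        g p.2 r.2 (p.1.1 - r.1.1) := by
      intro p r
      rw [hg]
      congr 1
      unfold fl
      rw [← WithLp.toLp_sub]
      apply norm_eq_of_abs
      intro i
      by_cases hi : i = j
      · simp only [Pi.sub_apply, hi, dite_true, if_true]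
        rw [abs_sub_comm, sub_neg_eq_add, add_comm]
      · simp only [Pi.sub_apply, hi, dite_false, if_false]
        congr 1
        push_cast
        ring
    simp only [h1, Fintype.sum_prod_type] at h0
    have h2 : ∑ l ∈ B (ι := {i : Fin d // i ≠ j}) M, ∑ l' ∈ B (ι := {i : Fin d // i ≠ j}) M,
        ∑ x, ∑ y, v x * v y * g x y (l - l') =
        ∑ l : {l // l ∈ B (ι := {i : Fin d // i ≠ j}) M}, ∑ x,
          ∑ l' : {l // l ∈ B (ι := {i : Fin d // i ≠ j}) M}, ∑ y,
            v x * v y * g x y (l.1 - l'.1) := by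
      rw [← Finset.sum_coe_sort]
      refine Finset.sum_congr rfl fun l _ => ?_
      rw [← Finset.sum_coe_sort, Finset.sum_comm]
    rw [h2]
    exact h0

/-- sums over a subtype -/
private theorem sum_sub {α : Type} [Fintype α] (p : α → Prop) [DecidablePred p] (F : α → ℝ)
    (h : ∀ x, ¬ p x → F x = 0) : ∑ x, F x = ∑ x : {x // p x}, F x.1 := by
  have h1 : ∑ x ∈ Finset.univ.filter p, F x = ∑ x, F x :=
    Finset.sum_filter_of_ne fun x _ hx => by_contra fun hc => hx (h x hc)
  rw [← h1]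
  exact Finset.sum_subtype _ (by simp) F

/-! ### The lattice vectors which are congruent to the difference of a point and a reflected one -/

section Main

variable {d N : ℕ} [NeZero N] (j : Fin d)

/-- the lattice vectors -/
private def Ph (x y : Fin d → ZMod N) (p : ℤ × ({i : Fin d // i ≠ j} → ℤ)) : Fin d → ℤ :=
  fun i => if h : i = j then ((x i).val : ℤ) + (y i).val + 1 + N * p.1
    else ((x i).val : ℤ) - (y i).val + N * p.2 ⟨i, h⟩

private theorem Ph_inj (x y : Fin d → ZMod N) : Function.Injective (Ph j x y) := by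
  have hN : (N : ℤ) ≠ 0 := by exact_mod_cast NeZero.ne N
  rintro ⟨k, n⟩ ⟨k', n'⟩ h
  have h1 : k = k' := by
    have := congrFun h j
    simp only [Ph, dite_true] at this
    have h2 : (N : ℤ) * k = N * k' := by linarith
    exact mul_left_cancel₀ hN h2
  have h2 : n = n' := by
    funext i
    have := congrFun h i.1
    simp only [Ph, i.2, dite_false] at this
    have h2 : (N : ℤ) * n i = N * n' i := by linarith
    exact mul_left_cancel₀ hN h2
  rw [h1, h2]

private theorem Ph_cast (x y : Fin d → ZMod N) (p : ℤ × ({i : Fin d // i ≠ j} → ℤ)) (i : Fin d) :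
    ((Ph j x y p i : ℤ) : ZMod N) = if i = j then x i + y i + 1 else x i - y i := by
  unfold Ph
  by_cases h : i = j
  · simp only [h, dite_true, if_true]
    push_cast
    simp
  · simp only [h, dite_false, if_false]
    push_cast
    simp

private theorem Ph_range (x y : Fin d → ZMod N) (m : Fin d → ℤ)
    (hm : ∀ i, ((m i : ℤ) : ZMod N) = if i = j then x i + y i + 1 else x i - y i) :
    m ∈ Set.range (Ph j x y) := by
  have h1 : ∀ i, ∃ t : ℤ, m i = (if i = j then ((x i).val : ℤ) + (y i).val + 1 else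
      ((x i).val : ℤ) - (y i).val) + N * t := by
    intro i
    have h2 : (((m i - (if i = j then ((x i).val : ℤ) + (y i).val + 1 else
      ((x i).val : ℤ) - (y i).val) : ℤ)) : ZMod N) = 0 := by
      by_cases h : i = j
      · have := hm i
        simp only [h, if_true] at this ⊢
        push_cast
        rw [this]
        simp
      · have := hm i
        simp only [h, if_false] at this ⊢
        push_cast
        rw [this]
        simp
    rw [ZMod.intCast_zmod_eq_zero_iff_dvd] at h2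
    obtain ⟨t, ht⟩ := h2
    exact ⟨t, by linarith⟩
  choose t ht using h1
  refine ⟨(t j, fun i => t i.1), ?_⟩
  funext i
  unfold Ph
  by_cases h : i = j
  · subst h
    simp only [dite_true]
    rw [ht i, if_pos rfl]
  · simp only [h, dite_false]
    rw [ht i, if_neg h]

/-- the coordinate in the direction `j` -/
private theorem Ph_j (hN : Even N) {x y : Fin d → ZMod N} (hx : 2 * (x j).val < N)
    (hy : 2 * (y j).val < N) (p : ℤ × ({i : Fin d // i ≠ j} → ℤ)) :
    Ph j x y p j = ((x j).val : ℤ) + (y j).val + 1 + N * p.1 ∧ Ph j x y p j ≠ 0 := by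
  have h1 : Ph j x y p j = ((x j).val : ℤ) + (y j).val + 1 + N * p.1 := by
    simp [Ph]
  refine ⟨h1, ?_⟩
  rw [h1]
  intro hc
  obtain ⟨r, hr⟩ := hN
  rcases le_or_gt 0 p.1 with hp | hp
  · have : 0 ≤ (N : ℤ) * p.1 := by positivity
    omega
  · have : (N : ℤ) * p.1 ≤ -N := by nlinarith
    omega

private theorem Ph_ne (hN : Even N) {x y : Fin d → ZMod N} (hx : 2 * (x j).val < N)
    (hy : 2 * (y j).val < N) (p : ℤ × ({i : Fin d // i ≠ j} → ℤ)) : Ph j x y p ≠ 0 := by
  intro h
  apply (Ph_j j hN hx hy p).2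
  rw [h]
  rfl

private theorem norm_ipt {δ : ℝ} (hδ : 0 < δ) {m : Fin d → ℤ} (h : ‖ipt δ m‖ = δ) :
    ∑ i, (m i) ^ 2 = 1 := by
  have h1 : ‖ipt δ m‖ ^ 2 = δ ^ 2 * ∑ i, ((m i : ℤ) : ℝ) ^ 2 := by
    unfold ipt
    rw [EuclideanSpace.norm_sq_eq, Finset.mul_sum]
    refine Finset.sum_congr rfl fun i _ => ?_
    simp only [Real.norm_eq_abs, sq_abs]
    ring
  rw [h] at h1
  have h2 : (∑ i, ((m i : ℤ) : ℝ) ^ 2) = 1 := by
    have h3 : δ ^ 2 ≠ 0 := by positivity
    have h4 : δ ^ 2 * ∑ i, ((m i : ℤ) : ℝ) ^ 2 = δ ^ 2 * 1 := by rw [← h1, mul_one]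
    exact mul_left_cancel₀ h3 h4
  exact_mod_cast h2

/-- nearest neighbours -/
private theorem nn_eq (hN : Even N) {δ : ℝ} (hδ : 0 < δ) {x y : Fin d → ZMod N}
    (hx : 2 * (x j).val < N) (hy : 2 * (y j).val < N) (p : ℤ × ({i : Fin d // i ≠ j} → ℤ))
    (h : ‖ipt δ (Ph j x y p)‖ = δ) : x = y := by
  have h1 := norm_ipt hδ h
  obtain ⟨h2, h3⟩ := Ph_j j hN hx hy p
  have h4 : 1 ≤ (Ph j x y p j) ^ 2 := by
    have := Int.one_le_abs h3
    rw [← sq_abs]
    nlinarith
  have h5 : ∀ i, i ≠ j → Ph j x y p i = 0 := by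
    intro i hi
    have h6 : ∑ l ∈ ({i, j} : Finset (Fin d)), (Ph j x y p l) ^ 2 ≤ ∑ l, (Ph j x y p l) ^ 2 :=
      Finset.sum_le_univ_sum_of_nonneg fun l => sq_nonneg _
    rw [Finset.sum_pair hi, h1] at h6
    have h7 : (Ph j x y p i) ^ 2 = 0 := le_antisymm (by linarith) (sq_nonneg _)
    exact pow_eq_zero_iff (by norm_num) |>.1 h7
  have h6 : (Ph j x y p j) ^ 2 ≤ 1 := by
    rw [← h1]
    exact Finset.single_le_sum (f := fun l => (Ph j x y p l) ^ 2) (fun l _ => sq_nonneg _)
      (Finset.mem_univ j)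
  have h7 : |Ph j x y p j| ≤ 1 := by
    rw [← sq_abs] at h6
    nlinarith [abs_nonneg (Ph j x y p j)]
  funext i
  by_cases hi : i = j
  · subst hi
    apply ZMod.val_injective
    rw [h2, abs_le] at h7
    rw [h2] at h3
    obtain ⟨r, hr⟩ := hN
    rcases lt_trichotomy p.1 (-1) with hp | hp | hp
    · have : (N : ℤ) * p.1 ≤ -2 * N := by nlinarith
      omega
    · rw [hp] at h7
      omega
    · rcases eq_or_lt_of_le (show 0 ≤ p.1 by omega) with hp' | hp'
      · rw [← hp'] at h7
        omega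
      · have : (N : ℤ) ≤ (N : ℤ) * p.1 := by nlinarith
        omega
  · have h8 := h5 i hi
    unfold Ph at h8
    rw [dif_neg hi] at h8
    apply ZMod.val_injective
    have hx' := ZMod.val_lt (x i)
    have hy' := ZMod.val_lt (y i)
    rcases lt_trichotomy (p.2 ⟨i, hi⟩) 0 with hp | hp | hp
    · have : (N : ℤ) * p.2 ⟨i, hi⟩ ≤ -N := by nlinarith
      omega
    · rw [hp] at h8
      omega
    · have : (N : ℤ) ≤ (N : ℤ) * p.2 ⟨i, hi⟩ := by nlinarith
      omega

end Main

theorem pf_PJR (hRPJ : T_RPJ) (hPJS : T_PJS) : T_PJR := by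
  classical
  intro d N _ δ κ κ' s hN hδ hκ hκ' hds
  obtain ⟨-, hnn, hflip, -⟩ := hPJS d N δ κ κ' s hδ hκ hκ' hds
  refine ⟨hnn, hflip, ?_⟩
  intro j v hv
  obtain ⟨hs1, -⟩ := hPJS d N δ 1 0 s hδ zero_le_one le_rfl hds
  obtain ⟨hs2, -⟩ := hPJS d N δ 0 1 s hδ le_rfl zero_le_one hds
  -- the two parts
  have hf1 : ∀ x y : {x : Fin d → ZMod N // 2 * (x j).val < N},
      Summable fun p => ‖ipt δ (Ph j x.1 y.1 p)‖ ^ (-(2 * s)) := by
    intro x y
    refine (hs1.comp_injective (Ph_inj j x.1 y.1)).congr fun p => ?_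
    simp only [Function.comp]
    rw [if_pos (Ph_ne j hN x.2 y.2 p)]
    simp
  have hf2 : ∀ x y : {x : Fin d → ZMod N // 2 * (x j).val < N},
      Summable fun p => if ‖ipt δ (Ph j x.1 y.1 p)‖ = δ then (1 : ℝ) else 0 := by
    intro x y
    refine (hs2.comp_injective (Ph_inj j x.1 y.1)).congr fun p => ?_
    simp only [Function.comp]
    rw [if_pos (Ph_ne j hN x.2 y.2 p)]
    simp
  have hpJ : ∀ x y : {x : Fin d → ZMod N // 2 * (x j).val < N},
      pJ δ κ κ' s (fun i => if i = j then x.1 i + y.1 i + 1 else x.1 i - y.1 i) =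
      κ * (∑' p, ‖ipt δ (Ph j x.1 y.1 p)‖ ^ (-(2 * s))) +
        κ' * ∑' p, if ‖ipt δ (Ph j x.1 y.1 p)‖ = δ then (1 : ℝ) else 0 := by
    intro x y
    unfold pJ
    rw [← (Ph_inj j x.1 y.1).tsum_eq]
    · rw [← tsum_mul_left, ← tsum_mul_left,
        ← Summable.tsum_add ((hf1 x y).mul_left _) ((hf2 x y).mul_left _)]
      refine tsum_congr fun p => ?_
      rw [if_pos ⟨Ph_ne j hN x.2 y.2 p, Ph_cast j x.1 y.1 p⟩]
      congr 1
      split_ifs <;> simp
    · intro m hm
      apply Ph_range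
      by_contra hc
      apply hm
      exact if_neg fun h => hc h.2
  have hsum : ∑ x, ∑ y, v x * v y * pJ δ κ κ' s (fun i => if i = j then x i + y i + 1 else
      x i - y i) = ∑ x : {x : Fin d → ZMod N // 2 * (x j).val < N},
      ∑ y : {x : Fin d → ZMod N // 2 * (x j).val < N}, v x.1 * v y.1 *
        pJ δ κ κ' s (fun i => if i = j then x.1 i + y.1 i + 1 else x.1 i - y.1 i) := by
    rw [sum_sub (fun x : Fin d → ZMod N => 2 * (x j).val < N)]
    · refine Finset.sum_congr rfl fun x _ => ?_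
      rw [sum_sub (fun y : Fin d → ZMod N => 2 * (y j).val < N)]
      intro y hy
      rw [hv y (not_lt.1 hy)]
      simp
    · intro x hx
      simp [hv x (not_lt.1 hx)]
  rw [hsum]
  have hsplit : ∑ x : {x : Fin d → ZMod N // 2 * (x j).val < N},
      ∑ y : {x : Fin d → ZMod N // 2 * (x j).val < N}, v x.1 * v y.1 *
        pJ δ κ κ' s (fun i => if i = j then x.1 i + y.1 i + 1 else x.1 i - y.1 i) =
      κ * (∑ x : {x : Fin d → ZMod N // 2 * (x j).val < N},
        ∑ y : {x : Fin d → ZMod N // 2 * (x j).val < N}, v x.1 * v y.1 *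
          ∑' p, ‖ipt δ (Ph j x.1 y.1 p)‖ ^ (-(2 * s))) +
      κ' * (∑ x : {x : Fin d → ZMod N // 2 * (x j).val < N},
        ∑ y : {x : Fin d → ZMod N // 2 * (x j).val < N}, v x.1 * v y.1 *
          ∑' p, if ‖ipt δ (Ph j x.1 y.1 p)‖ = δ then (1 : ℝ) else 0) := by
    simp only [hpJ, Finset.mul_sum, ← Finset.sum_add_distrib]
    refine Finset.sum_congr rfl fun x _ => Finset.sum_congr rfl fun y _ => ?_
    ring
  rw [hsplit]
  refine add_nonneg (mul_nonneg hκ ?_) (mul_nonneg hκ' ?_)
  · -- the power law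
    have e1 : ∑ x : {x : Fin d → ZMod N // 2 * (x j).val < N},
        ∑ y : {x : Fin d → ZMod N // 2 * (x j).val < N}, v x.1 * v y.1 *
          ∑' p, ‖ipt δ (Ph j x.1 y.1 p)‖ ^ (-(2 * s)) =
        ∑' p, ∑ x : {x : Fin d → ZMod N // 2 * (x j).val < N},
          ∑ y : {x : Fin d → ZMod N // 2 * (x j).val < N}, v x.1 * v y.1 *
            ‖ipt δ (Ph j x.1 y.1 p)‖ ^ (-(2 * s)) := by
      rw [Summable.tsum_finsetSum fun x _ => summable_sum fun y _ => (hf1 x y).mul_left _]
      refine Finset.sum_congr rfl fun x _ => ?_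
      rw [Summable.tsum_finsetSum fun y _ => (hf1 x y).mul_left _]
      exact Finset.sum_congr rfl fun y _ => tsum_mul_left.symm
    rw [e1, Summable.tsum_prod (summable_sum fun x _ => summable_sum fun y _ =>
      (hf1 x y).mul_left _)]
    refine tsum_nonneg fun k => ?_
    obtain ⟨r, hr⟩ := hN
    have hr' : (N : ℝ) = r + r := by exact_mod_cast hr
    rcases le_or_gt 0 k with hk | hk
    · refine posk (δ := δ) hRPJ j hds.le N (fun x : {x : Fin d → ZMod N // 2 * (x j).val < N} => v x.1)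
        (fun x => δ * (((x.1 j).val : ℝ) + 1 / 2 + N * k / 2)) ?_
        (fun x i => ((x.1 i).val : ℤ)) (fun x y n => ‖ipt δ (Ph j x.1 y.1 (k, n))‖ ^ (-(2 * s)))
        ?_ fun x y => (hf1 x y).prod_factor k
      · intro x
        have hk' : (0 : ℝ) ≤ k := by exact_mod_cast hk
        positivity
      · intro x y n
        congr 1
        unfold ipt
        apply norm_eq_of_abs
        intro i
        unfold Ph
        by_cases hi : i = j
        · simp only [hi, dite_true]
          congr 1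
          push_cast
          ring
        · simp only [hi, dite_false]
    · refine posk (δ := δ) hRPJ j hds.le N (fun x : {x : Fin d → ZMod N // 2 * (x j).val < N} => v x.1)
        (fun x => δ * -(((x.1 j).val : ℝ) + 1 / 2 + N * k / 2)) ?_
        (fun x i => ((x.1 i).val : ℤ)) (fun x y n => ‖ipt δ (Ph j x.1 y.1 (k, n))‖ ^ (-(2 * s)))
        ?_ fun x y => (hf1 x y).prod_factor k
      · intro x
        apply mul_pos hδ
        have hk' : (k : ℝ) ≤ -1 := by exact_mod_cast (show k ≤ -1 by omega)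
        have hx : (x.1 j).val + 1 ≤ r := by
          have := x.2
          omega
        have hx' : ((x.1 j).val : ℝ) + 1 ≤ r := by exact_mod_cast hx
        have hN' : (N : ℝ) * k ≤ -N := by nlinarith [(Nat.cast_nonneg N : (0 : ℝ) ≤ N)]
        linarith
      · intro x y n
        congr 1
        unfold ipt
        apply norm_eq_of_abs
        intro i
        unfold Ph
        by_cases hi : i = j
        · simp only [hi, dite_true]
          rw [← abs_neg]
          congr 1
          push_cast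
          ring
        · simp only [hi, dite_false]
  · -- the nearest neighbours
    refine Finset.sum_nonneg fun x _ => Finset.sum_nonneg fun y _ => ?_
    by_cases hxy : x = y
    · subst hxy
      refine mul_nonneg (mul_self_nonneg _) (tsum_nonneg fun p => ?_)
      split_ifs
      · exact zero_le_one
      · exact le_rfl
    · have h0 : ∀ p, (if ‖ipt δ (Ph j x.1 y.1 p)‖ = δ then (1 : ℝ) else 0) = 0 := fun p =>
        if_neg fun h => hxy (Subtype.ext (nn_eq j hN hδ x.2 y.2 p h))
      simp [h0]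

end Pool.Agent.H7.UDP
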